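import Pool.Agent.helper56.NZ.Spec

set_option autoImplicit false

open Complex Metric Set Filter Topology MeasureTheory
open Pool.Agent.helper98.ILF Pool.Agent.helper16.Multibrot
open HY (UD T S hd UN RM VV SG Orb fz)

noncomputable section

namespace NZ

theorem SCL (hCFR : CFR_stmt) (hMON : MON_stmt) (hVKB : HY.VKB_stmt) (hKO0 : V3.KO0_stmt) (hKO1 : V3.KO1_stmt) :
    SCL_stmt := by
  intro n hn
  obtain ⟨κ, hκ0, hκ1, hC⟩ := hCFR n hn
  refine ⟨κ, hκ0, hκ1, ?_⟩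
  intro c hc hint Φ hΦ k₀
  obtain ⟨-, -, -, -, -, -, -, -, -, -, hfill, -⟩ := hVKB n c hn hc
  have h0 : (0 : ℂ) ∈ UD := mem_ball_self one_pos
  have hpos : ∀ k, 0 < ‖deriv (Φ k) 0‖ := by
    intro k
    exact norm_pos_iff.2 (hKO0 (Φ k) UD isOpen_ball (hΦ k).dif (hΦ k).inj 0 h0)
  have hanti : ∀ k k' : ℕ, k ≤ k' → ‖deriv (Φ k') 0‖ ≤ ‖deriv (Φ k) 0‖ := by
    intro k k' hkk
    exact (hMON n c hn hc k k' (Φ k) (Φ k') hkk (hΦ k) (hΦ k')).1
  have hsmall : ∀ ρ > (0 : ℝ), ∃ k, ‖deriv (Φ k) 0‖ < ρ := by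
    intro ρ hρ
    by_contra hcon
    push Not at hcon
    obtain ⟨C, hC1, hK⟩ := hKO1
    have hCpos : 0 < C := by linarith
    have hsub : ball (0 : ℂ) (ρ / C) ⊆ filled n c := by
      intro z hz
      apply hfill 0 z
      intro l _
      have h1 := hK (Φ l) 0 1 one_pos (hΦ l).dif (hΦ l).inj
      have h2 : Φ l '' ball (0 : ℂ) 1 = VV n c l := (hΦ l).img
      rw [h2, (hΦ l).val] at h1
      apply h1
      rw [mem_ball_zero_iff] at hz ⊢
      refine hz.trans_le ?_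
      apply div_le_div_of_nonneg_right _ hCpos.le
      rw [one_mul]
      exact hcon l
    have h3 : ball (0 : ℂ) (ρ / C) ⊆ interior (filled n c) := interior_maximal hsub isOpen_ball
    rw [hint] at h3
    exact h3 (mem_ball_self (by positivity))
  refine ⟨‖deriv (Φ k₀) 0‖, hpos k₀, ?_⟩
  intro ρ hρ hρ0
  classical
  set m := Nat.find (hsmall ρ hρ) with hm
  have hm1 : ‖deriv (Φ m) 0‖ < ρ := Nat.find_spec (hsmall ρ hρ)
  have hm2 : ∀ k < m, ρ ≤ ‖deriv (Φ k) 0‖ := by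
    intro k hk
    exact not_lt.1 (Nat.find_min (hsmall ρ hρ) hk)
  have hmk : k₀ < m := by
    by_contra hle
    rw [not_lt] at hle
    have := hanti m k₀ hle
    linarith
  clear_value m
  obtain ⟨k, rfl⟩ : ∃ k, m = k + 1 := ⟨m - 1, by omega⟩
  refine ⟨k, by omega, hm2 k (by omega), ?_⟩
  rw [le_div_iff₀ hκ0]
  have := hC c hc k (Φ k) (Φ (k + 1)) (hΦ k) (hΦ (k + 1))
  linarith

end NZ
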